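import Pool.Agent.V1153.IT.ArU
import Pool.Agent.Y377.ST.Conv

/-!
Curves of the punctured line give families of points.
-/

set_option autoImplicit false

namespace Pool.Agent.V1153.IT

open MvPolynomial Pool.Agent.Y377.ST
open Pool.Agent.V1153.UG (GmBdd VanGm eval_aeval)

variable {n : ℕ}

theorem pev_poly {L ι : Type} [CommRing L] [Fintype ι] [DecidableEq ι] {e : ℕ}
    (p : Polynomial L) (hp : p.natDegree ≤ e) (V : ι) :
    ∃ c : (ι → Fin (e + 1)) → L, ∀ w : ι → L, p.eval (w V) = pev c w := by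
  classical
  refine ⟨fun m => ∑ t : Fin (e + 1), if m = (fun u => if u = V then t else 0) then
    p.coeff t else 0, fun w => ?_⟩
  unfold pev
  simp_rw [Finset.sum_mul]
  rw [Finset.sum_comm, Polynomial.eval_eq_sum_range' (n := e + 1) (by omega),
    ← Fin.sum_univ_eq_sum_range (fun k => p.coeff k * w V ^ k)]
  refine Finset.sum_congr rfl fun t _ => ?_
  rw [Finset.sum_eq_single (fun u => if u = V then t else 0)]
  · rw [if_pos rfl, Finset.prod_eq_single V]
    · simp
    · intro u _ hu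
      simp [hu]
    · intro h
      exact absurd (Finset.mem_univ _) h
  · intro m _ hm
    rw [if_neg hm, zero_mul]
  · intro h
    exact absurd (Finset.mem_univ _) h

/-- the powers of two -/
noncomputable def tw (h : Multiplicative ℤ) : ℂ := (2 : ℂ) ^ (Multiplicative.toAdd h)

theorem tw_ne (h : Multiplicative ℤ) : tw h ≠ 0 := zpow_ne_zero _ two_ne_zero

theorem tw_mul (g h : Multiplicative ℤ) : tw (g * h) = tw g * tw h :=
  zpow_add₀ two_ne_zero _ _

theorem tw_inj : Function.Injective tw := by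
  intro g h hgh
  have h1 : ((2 : ℝ) : ℂ) ^ (Multiplicative.toAdd g) = ((2 : ℝ) : ℂ) ^ (Multiplicative.toAdd h) := by
    push_cast
    exact hgh
  have h2 : (2 : ℝ) ^ (Multiplicative.toAdd g) = (2 : ℝ) ^ (Multiplicative.toAdd h) := by
    exact_mod_cast h1
  exact Multiplicative.toAdd.injective (zpow_right_injective₀ two_pos (by norm_num) h2)

/-- the family of points of a curve -/
theorem iter_curve {D N : ℕ} {I : Ideal (MvPolynomial (Fin (n + 1)) ℂ)}
    {Q : MvPolynomial (Fin (n + 1)) ℂ} {q : ℕ} (hq : q ≤ D) (hQ : Q.IsHomogeneous q)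
    {P : Fin (n + 1) → Polynomial ℂ} (hP : GmBdd I Q N P) :
    IterOff 1 1 (D * N + N) Q fun (h : Multiplicative ℤ) j => (P j).eval (tw h) := by
  classical
  obtain ⟨c, κ, hc, hκ⟩ := hP.off
  have hdQ : (aeval P Q : Polynomial ℂ).natDegree ≤ q * N := by
    rw [aeval_def, eval₂_eq]
    refine Polynomial.natDegree_sum_le_of_forall_le _ _ fun u hu => ?_
    refine Polynomial.natDegree_mul_le.trans ?_
    have h1 : (algebraMap ℂ (Polynomial ℂ) (coeff u Q)).natDegree = 0 :=
      Polynomial.natDegree_C _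
    rw [h1, zero_add]
    refine (Polynomial.natDegree_prod_le _ _).trans ?_
    have h2 := hQ (mem_support_iff.1 hu)
    have h3 : ∑ i ∈ u.support, u i = q := by
      rw [← h2, Finsupp.weight_apply, Finsupp.sum]
      simp
    calc ∑ i ∈ u.support, (P i ^ u i).natDegree ≤ ∑ i ∈ u.support, u i * N :=
          Finset.sum_le_sum fun i _ => Polynomial.natDegree_pow_le.trans
            (Nat.mul_le_mul_left _ (hP.deg i))
      _ = q * N := by rw [← Finset.sum_mul, h3]
  have hκ2 : κ ≤ D * N + N := by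
    rw [hκ, Polynomial.natDegree_C_mul_X_pow _ _ hc] at hdQ
    have := Nat.mul_le_mul_right N hq
    omega
  have hQe : ∀ h, eval (fun j => (P j).eval (tw h)) Q = c * tw h ^ κ := by
    intro h
    rw [← eval_aeval, hκ, Polynomial.eval_mul, Polynomial.eval_C, Polynomial.eval_pow,
      Polynomial.eval_X]
  refine ⟨fun h => ?_, fun _ h => fun _ _ => tw h, fun _ h => fun _ _ => (tw h)⁻¹, ⟨?_, ?_⟩, ?_⟩
  · rw [hQe]
    exact mul_ne_zero hc (pow_ne_zero _ (tw_ne h))
  · intro l h
    ext i j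
    rw [Matrix.mul_apply, Fin.sum_univ_one, mul_inv_cancel₀ (tw_ne h), Subsingleton.elim i j,
      Matrix.one_apply_eq]
  · intro l g i j
    refine ⟨fun m => if m = 0 then tw g else 0, fun h => ?_⟩
    rw [pev_const, Matrix.mul_apply, Fin.sum_univ_one, tw_mul, mul_assoc,
      mul_inv_cancel₀ (tw_ne h), mul_one]
  · intro j
    refine Fin.cases ?_ (fun j => ?_) j
    · obtain ⟨c', hc'⟩ := pev_poly (e := D * N + N) (Polynomial.C c⁻¹ * Polynomial.X ^ κ)
        ((Polynomial.natDegree_C_mul_X_pow_le _ _).trans hκ2) ((0, false, 0, 0) : Ix 1 1)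
      refine ⟨c', fun h => ?_⟩
      change (eval (fun j => (P j).eval (tw h)) Q)⁻¹ = _
      rw [← hc', hQe, mul_inv, Polynomial.eval_mul, Polynomial.eval_C,
        Polynomial.eval_pow, Polynomial.eval_X, ← inv_pow]
      rfl
    · obtain ⟨c', hc'⟩ := pev_poly (e := D * N + N) (P j)
        ((hP.deg j).trans (Nat.le_add_left _ _)) ((0, true, 0, 0) : Ix 1 1)
      refine ⟨c', fun h => ?_⟩
      change (P j).eval (tw h) = _
      rw [← hc']
      rfl

/-- infinitely many points -/
theorem curve_infinite {N : ℕ} {I : Ideal (MvPolynomial (Fin (n + 1)) ℂ)}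
    {Q G : MvPolynomial (Fin (n + 1)) ℂ} {P : Fin (n + 1) → Polynomial ℂ} (hP : GmBdd I Q N P)
    {t : ℂ} (ht : eval (fun j => (P j).eval t) G ≠ 0) :
    (ptsOff G fun (h : Multiplicative ℤ) j => (P j).eval (tw h)).Infinite := by
  classical
  intro hfin
  have hG0 : (aeval P G : Polynomial ℂ) ≠ 0 := by
    intro h0
    apply ht
    rw [← eval_aeval, h0, Polynomial.eval_zero]
  obtain ⟨s1, s2, j1, k1, hnc⟩ := hP.nc
  obtain ⟨l, hl⟩ : ∃ l, P l ≠ 0 := by
    by_contra hcon
    push Not at hcon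
    apply hnc
    rw [hcon j1, hcon k1]
  -- the good exponents
  let S : Set (Multiplicative ℤ) := {h | (aeval P G * P l : Polynomial ℂ).eval (tw h) ≠ 0}
  have hS : Sᶜ.Finite := by
    have h1 : Sᶜ ⊆ tw ⁻¹' ((aeval P G * P l : Polynomial ℂ).roots.toFinset : Set ℂ) := by
      intro h hh
      have h2 : (aeval P G * P l : Polynomial ℂ).eval (tw h) = 0 := by
        by_contra h3
        exact hh h3
      rw [Set.mem_preimage, Finset.mem_coe, Multiset.mem_toFinset,
        Polynomial.mem_roots (mul_ne_zero hG0 hl)]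
      exact h2
    exact (Set.Finite.preimage tw_inj.injOn (Finset.finite_toSet _)).subset h1
  have hSi : S.Infinite := by
    have h1 := hS.infinite_compl
    rwa [compl_compl] at h1
  have hne : ∀ h ∈ S, (fun j => (P j).eval (tw h)) ≠ 0 := by
    intro h hh h0
    have h1 : (aeval P G * P l : Polynomial ℂ).eval (tw h) ≠ 0 := hh
    rw [Polynomial.eval_mul] at h1
    exact right_ne_zero_of_mul h1 (congrFun h0 l)
  let f : Multiplicative ℤ → Projectivization ℂ (Fin (n + 1) → ℂ) := fun h =>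
    if h0 : (fun j => (P j).eval (tw h)) ≠ 0 then Projectivization.mk ℂ _ h0 else
      Projectivization.mk ℂ (fun _ => 1) (fun h1 => one_ne_zero (congrFun h1 0))
  have hf : Set.MapsTo f S (ptsOff G fun (h : Multiplicative ℤ) j => (P j).eval (tw h)) := by
    intro h hh
    have h1 : (aeval P G * P l : Polynomial ℂ).eval (tw h) ≠ 0 := hh
    rw [Polynomial.eval_mul, eval_aeval] at h1
    refine ⟨h, hne h hh, ?_, dif_pos (hne h hh)⟩
    have h2 := left_ne_zero_of_mul h1
    rw [← MvPolynomial.coe_aeval_eq_eval] at h2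
    exact h2
  obtain ⟨p, hp⟩ : ∃ p, (S ∩ f ⁻¹' {p}).Infinite := by
    by_contra hcon
    push Not at hcon
    apply hSi
    refine (hfin.biUnion fun p _ => hcon p).subset fun h hh => ?_
    exact Set.mem_biUnion (hf hh) ⟨hh, rfl⟩
  obtain ⟨h0, hh0, hf0⟩ := hp.nonempty
  have hf0' : f h0 = p := hf0
  have hcr : ∀ h ∈ S ∩ f ⁻¹' {p}, ∀ j k,
      (P j).eval (tw h) * (P k).eval (tw h0) = (P k).eval (tw h) * (P j).eval (tw h0) := by
    rintro h ⟨hh, hfh⟩ j k
    have hfh' : f h = p := hfh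
    have h1 : f h = f h0 := hfh'.trans hf0'.symm
    have h2 : f h = Projectivization.mk ℂ _ (hne h hh) := dif_pos (hne h hh)
    have h3 : f h0 = Projectivization.mk ℂ _ (hne h0 hh0) := dif_pos (hne h0 hh0)
    rw [h2, h3, Projectivization.mk_eq_mk_iff'] at h1
    obtain ⟨a, ha⟩ := h1
    have h4 : a * (P j).eval (tw h0) = (P j).eval (tw h) := congrFun ha j
    have h5 : a * (P k).eval (tw h0) = (P k).eval (tw h) := congrFun ha k
    rw [← h4, ← h5]
    ring
  have hpoly : ∀ j k, P j * Polynomial.C ((P k).eval (tw h0)) =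
      P k * Polynomial.C ((P j).eval (tw h0)) := by
    intro j k
    rw [← sub_eq_zero]
    by_contra hne0
    have h1 : (S ∩ f ⁻¹' {p}) ⊆ tw ⁻¹' ((P j * Polynomial.C ((P k).eval (tw h0)) -
        P k * Polynomial.C ((P j).eval (tw h0))).roots.toFinset : Set ℂ) := by
      intro h hh
      rw [Set.mem_preimage, Finset.mem_coe, Multiset.mem_toFinset, Polynomial.mem_roots hne0]
      change Polynomial.eval _ _ = 0
      rw [Polynomial.eval_sub, Polynomial.eval_mul, Polynomial.eval_mul, Polynomial.eval_C,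
        Polynomial.eval_C, hcr h hh j k, sub_self]
    exact hp ((Set.Finite.preimage tw_inj.injOn (Finset.finite_toSet _)).subset h1)
  obtain ⟨k0, hk0⟩ := Function.ne_iff.1 (hne h0 hh0)
  have hk0' : (P k0).eval (tw h0) ≠ 0 := hk0
  apply hnc
  have h1 : ∀ j s, (P j).eval s * (P k0).eval (tw h0) = (P k0).eval s * (P j).eval (tw h0) := by
    intro j s
    have h2 := congrArg (Polynomial.eval s) (hpoly j k0)
    rwa [Polynomial.eval_mul, Polynomial.eval_mul, Polynomial.eval_C, Polynomial.eval_C] at h2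
  have h2 : (P k0).eval (tw h0) * (P k0).eval (tw h0) *
      ((P j1).eval s1 * (P k1).eval s2 - (P k1).eval s1 * (P j1).eval s2) = 0 := by
    linear_combination (P k0).eval (tw h0) * (P k1).eval s2 * h1 j1 s1 +
      (P k0).eval s1 * (P j1).eval (tw h0) * h1 k1 s2 -
      (P k0).eval (tw h0) * (P j1).eval s2 * h1 k1 s1 -
      (P k0).eval s1 * (P k1).eval (tw h0) * h1 j1 s2
  exact sub_eq_zero.1 ((mul_eq_zero.1 h2).resolve_left (mul_ne_zero hk0' hk0'))

/-- **The converse.** -/
theorem arith_conv (n D N : ℕ) : ∃ e : ℕ, ∀ (I : Ideal (MvPolynomial (Fin (n + 1)) ℂ))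
    (Q G : MvPolynomial (Fin (n + 1)) ℂ), (∃ a ≤ D, Q.IsHomogeneous a) →
      (∀ x : Multiplicative ℤ → Fin (n + 1) → ℂ,
        (∀ h, ∀ F ∈ I, (∃ m, F.IsHomogeneous m) → eval (x h) F = 0) → IterOff 1 1 e Q x →
          (ptsOff G x).Finite) → VanGm I Q N G := by
  refine ⟨D * N + N, ?_⟩
  rintro I Q G ⟨q, hq, hQ⟩ h P hP t
  by_contra ht
  refine curve_infinite hP ht (h _ (fun h F hF hFh => ?_) (iter_curve hq hQ hP))
  rw [← eval_aeval, hP.mem F hF hFh, Polynomial.eval_zero]

end Pool.Agent.V1153.IT
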