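import Pool.Agent.Y377.ST.Main
import Pool.Agent.V1153.UG.Fam

/-!
Values of iterated recurrences in the complement of a hypersurface: families of curves of the
punctured line through the points of a coset.
-/

set_option autoImplicit false

namespace Pool.Agent.V1153.IT

open MvPolynomial Pool.Agent.Y377.EL Pool.Agent.Y377.IL Pool.Agent.Y377.IR Pool.Agent.Y377.ST
open scoped LinearAlgebra.Projectivization
open Pool.Agent.TH143.EL (Rep InV inV_iff rep_rep rep_smul rep_eq)

variable {H : Type} [Group H] {n : ℕ}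

/-- polynomial curves from rational functions -/
theorem clear {M : Type} [Field M] [Algebra ℂ M] {q : Fin (n + 1) → RatFunc M} {l : Fin (n + 1)}
    (hq : q l ≠ 0) (hi : ∃ i, ∀ c : M, q i / q l ≠ algebraMap M (RatFunc M) c) :
    ∃ P : Fin (n + 1) → Polynomial M, (∀ G : MvPolynomial (Fin (n + 1)) ℂ,
      (∃ e, G.IsHomogeneous e) → (aeval P G = 0 ↔ aeval q G = 0)) ∧
      ∃ j k, Polynomial.derivative (P j) * P k ≠ P j * Polynomial.derivative (P k) := by
  classical
  have hM : CharZero M := charZero_of_injective_algebraMap (algebraMap ℂ M).injective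
  obtain ⟨b, hb⟩ := IsLocalization.exist_integer_multiples (nonZeroDivisors (Polynomial M))
    Finset.univ q
  choose P hP using fun j => hb j (Finset.mem_univ j)
  have hb0 : (b : Polynomial M) ≠ 0 := nonZeroDivisors.ne_zero b.2
  set c : RatFunc M := algebraMap (Polynomial M) (RatFunc M) b with hc
  have hc0 : c ≠ 0 := by
    rw [hc, Ne, map_eq_zero_iff _ (RatFunc.algebraMap_injective M)]
    exact hb0
  have hPq : ∀ j, algebraMap (Polynomial M) (RatFunc M) (P j) = c * q j := by
    intro j
    rw [hP j, Algebra.smul_def]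
  refine ⟨P, ?_, ?_⟩
  · rintro G ⟨d, hG⟩
    have e1 : algebraMap (Polynomial M) (RatFunc M) (aeval P G) = c ^ d * aeval q G := by
      have e2 : algebraMap (Polynomial M) (RatFunc M) (aeval P G) =
          aeval (fun j => algebraMap (Polynomial M) (RatFunc M) (P j)) G :=
        MvPolynomial.comp_aeval_apply (f := P)
          (IsScalarTower.toAlgHom ℂ (Polynomial M) (RatFunc M)) G
      rw [e2]
      have e3 : (fun j => algebraMap (Polynomial M) (RatFunc M) (P j)) = fun j => c * q j :=
        funext hPq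
      rw [e3, form_scale hG]
    rw [← map_eq_zero_iff _ (RatFunc.algebraMap_injective M), e1, mul_eq_zero,
      or_iff_right (pow_ne_zero _ hc0)]
  · obtain ⟨i, hi⟩ := hi
    refine ⟨i, l, fun hw => ?_⟩
    have hPl : P l ≠ 0 := by
      intro h0
      have h1 := hPq l
      rw [h0, map_zero] at h1
      exact mul_ne_zero hc0 hq h1.symm
    obtain ⟨a, ha⟩ := prop_of_wronskian hPl hw
    apply hi a
    have e7 := hPq i
    rw [ha, map_mul, hPq l] at e7
    have e8 : algebraMap (Polynomial M) (RatFunc M) (Polynomial.C a) =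
        algebraMap M (RatFunc M) a := rfl
    rw [e8] at e7
    rw [div_eq_iff hq]
    apply mul_left_cancel₀ hc0
    rw [← e7]
    ring

/-- **Families of curves of the punctured line through the points of a coset.** -/
theorem coset_fam {R : Subalgebra ℂ (H → ℂ)} {x : H → Fin (n + 1) → ℂ}
    (hx : ∀ j, (fun h => x h j) ∈ R) {Q : MvPolynomial (Fin (n + 1)) ℂ} {d : ℕ}
    (hQ : Q.IsHomogeneous d) {w : H → ℂ} (hw : w ∈ R) (hwQ : ∀ h, w h * eval (x h) Q = 1)
    {Nn : Subgroup H} {a b : H} {K : Type} [Field K] [Algebra ℂ K]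
    {Γ : Subgroup (K ≃ₐ[ℂ] K)} {ρ : R →ₐ[ℂ] K} (hρ : Res R Nn a K Γ ρ) {l : Fin (n + 1)}
    (hl : x a l ≠ 0) (hb : b * a⁻¹ ∈ Nn) {u v : Fin (n + 1)}
    (huv : x a u * x b v ≠ x a v * x b u) :
    ∃ (M : Type) (_ : Field M) (_ : Algebra ℂ M) (P : Fin (n + 1) → Polynomial M),
      (∀ G : MvPolynomial (Fin (n + 1)) ℂ, (∃ e, G.IsHomogeneous e) →
        (aeval P G = 0 ↔ ∀ g ∈ Nn, eval (x (g * a)) G = 0)) ∧
      (∃ (c : M) (k : ℕ), c ≠ 0 ∧ aeval P Q = Polynomial.C c * Polynomial.X ^ k) ∧
      ∃ j k, Polynomial.derivative (P j) * P k ≠ P j * Polynomial.derivative (P k) := by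
  classical
  rcases Nat.eq_zero_or_pos d with rfl | hd
  · obtain ⟨M, i1, i2, q, h1, h2, h3⟩ := rat_point hx hρ hl hb huv
    obtain ⟨P, hP1, hP2⟩ := clear h2 h3
    refine ⟨M, i1, i2, P, fun G hG => ?_, ⟨algebraMap ℂ M (coeff 0 Q), 0, ?_, ?_⟩, hP2⟩
    · rw [hP1 G hG]
      obtain ⟨e, he⟩ := hG
      exact h1 G e he
    · rw [Ne, map_eq_zero_iff _ (algebraMap ℂ M).injective]
      intro h0
      have h4 := hwQ 1
      rw [UG.homog_zero hQ, h0, C_0, map_zero, mul_zero] at h4
      exact zero_ne_one h4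
    · rw [UG.homog_zero hQ, aeval_C, coeff_C, if_pos rfl, pow_zero, mul_one]
      rfl
  · have hne : ∀ h, x h ≠ 0 := by
      intro h h0
      have h1 := hwQ h
      have h2 : eval (x h) Q = 0 := by
        have h3 := UG.eval_homog hQ 0 (x h)
        rw [zero_pow hd.ne', zero_mul] at h3
        have h4 : x h = fun j => 0 * x h j := by
          rw [h0]
          funext j
          simp
        rw [h4]
        exact h3
      rw [h2, mul_zero] at h1
      exact zero_ne_one h1
    let P : H → ℙ ℂ (Fin (n + 1) → ℂ) := fun h => Projectivization.mk ℂ (x h) (hne h)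
    have hrep : ∀ h, ∃ c : ℂ, c ≠ 0 ∧ (P h).rep = fun j => c * x h j := by
      intro h
      obtain ⟨c, hc⟩ := Projectivization.exists_smul_eq_mk_rep ℂ (x h) (hne h)
      refine ⟨(c : ℂ), c.ne_zero, ?_⟩
      change (Projectivization.mk ℂ (x h) (hne h)).rep = _
      rw [← hc]
      rfl
    choose c hc0 hc using hrep
    have hev : ∀ (h : H) (G : MvPolynomial (Fin (n + 1)) ℂ) (e : ℕ), G.IsHomogeneous e →
        eval (P h).rep G = c h ^ e * eval (x h) G := by
      intro h G e he
      rw [hc h, UG.eval_homog he]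
    have hQx : ∀ h, eval (x h) Q ≠ 0 := fun h => right_ne_zero_of_mul_eq_one (hwQ h)
    have hX : ∀ h, eval (P h).rep Q ≠ 0 := fun h => by
      rw [hev h Q d hQ]
      exact mul_ne_zero (pow_ne_zero _ (hc0 h)) (hQx h)
    have hreg : ∀ α : Fin (n + 1) →₀ ℕ, ∑ j, α j = d → regP Q α P ∈ R := by
      intro α hα
      have h1 : regP Q α P = (∏ j, (fun h => x h j) ^ α j) * w := by
        funext h
        rw [Pi.mul_apply, Finset.prod_apply]
        unfold regP
        have h2 : ∏ j, (P h).rep j ^ α j = c h ^ d * ∏ j, x h j ^ α j := by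
          rw [← hα, ← Finset.prod_pow_eq_pow_sum, ← Finset.prod_mul_distrib]
          refine Finset.prod_congr rfl fun j _ => ?_
          rw [hc h, mul_pow]
        rw [h2, hev h Q d hQ, mul_div_mul_left _ _ (pow_ne_zero _ (hc0 h)), div_eq_iff (hQx h)]
        simp only [Pi.pow_apply]
        rw [mul_assoc, hwQ h, mul_one]
      rw [h1]
      exact R.mul_mem (R.prod_mem fun j _ => R.pow_mem (hx j) _) hw
    rcases coset_log hyp ghyp Pool.Agent.Y988.IL.t_LOGP Pool.Agent.Y814.IL.t_PF hd hQ hρ hX hreg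
      with h1 | ⟨M, i1, i2, p, h1, h2, h3⟩
    · exfalso
      apply huv
      have h2 := h1 _ hb
      rw [inv_mul_cancel_right] at h2
      have h3 := congrArg Projectivization.rep h2
      rw [hc, hc] at h3
      have h4 := congrFun h3 u
      have h5 := congrFun h3 v
      have h6 : c b * (x a u * x b v - x a v * x b u) = 0 := by
        linear_combination x a u * h5 - x a v * h4
      exact sub_eq_zero.1 ((mul_eq_zero.1 h6).resolve_left (hc0 b))
    · refine ⟨M, i1, i2, p, fun G hG => ?_, h2, h3⟩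
      rw [h1 G hG]
      obtain ⟨e, he⟩ := hG
      refine forall₂_congr fun g _ => ?_
      rw [hev _ G e he, mul_eq_zero, or_iff_right (pow_ne_zero _ (hc0 _))]

end Pool.Agent.V1153.IT
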