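import Pool.Agent.V1153.IT.ArL
import Pool.Agent.V1153.UG.UnfC

/-!
Points given by iterated recurrences in bounded families of varieties.
-/

set_option autoImplicit false

namespace Pool.Agent.V1153.IT

open MvPolynomial Pool.Agent.Y377.EL Pool.Agent.Y377.IL Pool.Agent.Y377.IR Pool.Agent.Y377.ST
open Pool.Agent.V1153.UG (sqp sqp_hom sqp_ev curve_descent GmBdd VanGm exists_theta span_red)

variable {n : ℕ}

/-- many different points outside of `G = 0` -/
theorem exists_seqC {L : Type} [Field L] {H : Type} [Group H] {x : H → Fin (n + 1) → L}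
    {G : MvPolynomial (Fin (n + 1)) L} {B : ℕ} (hB : ¬ (ptsOff G x).encard ≤ (B : ℕ∞)) :
    ∃ hs : ℕ → H, (∀ i, eval (x (hs i)) G ≠ 0) ∧ (∀ i, x (hs i) ≠ 0) ∧
      ∀ i j, i ≤ B → j ≤ B → i ≠ j →
        ∃ u v, x (hs i) u * x (hs j) v ≠ x (hs i) v * x (hs j) u := by
  classical
  have h1 : ((B + 1 : ℕ) : ℕ∞) ≤ (ptsOff G x).encard := by
    rw [Nat.cast_add, Nat.cast_one]
    exact Order.add_one_le_of_lt (not_le.1 hB)
  obtain ⟨t, hts, htc⟩ := Set.exists_subset_encard_eq h1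
  have htf : t.Finite := Set.finite_of_encard_eq_coe htc
  have hcard : htf.toFinset.card = B + 1 := by
    have h2 := htf.encard_eq_coe_toFinset_card
    rw [htc] at h2
    exact_mod_cast h2.symm
  let P : Fin (B + 1) ≃ htf.toFinset := (Finset.equivFinOfCardEq hcard).symm
  have hP : ∀ i : Fin (B + 1), ((P i : htf.toFinset) : Projectivization L (Fin (n + 1) → L)) ∈
      ptsOff G x := fun i => hts (htf.mem_toFinset.1 (P i).2)
  choose hs0 h0 hG hPe using hP
  let c : ℕ → Fin (B + 1) := fun i => if hi : i < B + 1 then ⟨i, hi⟩ else 0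
  refine ⟨fun i => hs0 (c i), fun i => ?_, fun i => h0 (c i), ?_⟩
  · rw [← MvPolynomial.coe_aeval_eq_eval]
    exact hG (c i)
  · intro i j hi hj hij
    have hci : c i = ⟨i, by omega⟩ := dif_pos (by omega)
    have hcj : c j = ⟨j, by omega⟩ := dif_pos (by omega)
    have hcij : c i ≠ c j := by
      rw [hci, hcj]
      intro h2
      exact hij (Fin.mk.inj_iff.1 h2)
    by_contra hcon
    push Not at hcon
    apply hcij
    apply P.injective
    apply Subtype.ext
    rw [hPe (c i), hPe (c j), Projectivization.mk_eq_mk_iff']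
    obtain ⟨v0, hv0⟩ := Function.ne_iff.1 (h0 (c j))
    have hv0' : x (hs0 (c j)) v0 ≠ 0 := hv0
    refine ⟨x (hs0 (c i)) v0 / x (hs0 (c j)) v0, ?_⟩
    funext u
    rw [Pi.smul_apply, smul_eq_mul, div_mul_eq_mul_div, ← hcon u v0, mul_div_assoc,
      div_self hv0', mul_one]

/-- values at limits -/
theorem Th_sqp (Θ : (ℕ → ℂ) →+* ℂ) {δ : ℕ} {F : ℕ → MvPolynomial (Fin (n + 1)) ℂ}
    (hF : ∀ i, (F i).IsHomogeneous δ) (y : ℕ → Fin (n + 1) → ℂ) :
    eval (fun j => Θ fun i => y i j) (map Θ (sqp δ F)) = Θ fun i => eval (y i) (F i) := by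
  have h1 : eval (fun j i => y i j) (sqp δ F) = fun i => eval (y i) (F i) := by
    funext i
    have h2 := eval₂_comp_left (Pi.evalRingHom (fun _ : ℕ => ℂ) i) (RingHom.id (ℕ → ℂ))
      (fun j i => y i j) (sqp δ F)
    rw [RingHom.comp_id] at h2
    have h3 := eval_map (Pi.evalRingHom (fun _ : ℕ => ℂ) i) (y i) (sqp δ F)
    rw [sqp_ev hF i] at h3
    exact h2.trans h3.symm
  rw [← h1, eval_map]
  have h3 := eval₂_comp_left Θ (RingHom.id (ℕ → ℂ)) (fun j i => y i j) (sqp δ F)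
  rw [RingHom.comp_id] at h3
  exact h3.symm

/-- **Points given by iterated recurrences in bounded families of varieties.** -/
theorem arith_unif {m : ℕ} (δ : Fin m → ℕ) (q γ s r e : ℕ) :
    ∃ N : ℕ, ∀ (F : Fin m → MvPolynomial (Fin (n + 1)) ℂ) (Q G : MvPolynomial (Fin (n + 1)) ℂ),
      (∀ j, (F j).IsHomogeneous (δ j)) → Q.IsHomogeneous q → G.IsHomogeneous γ →
      VanGm (Ideal.span (Set.range F)) Q N G → ∀ (H : Type) [Group H] (x : H → Fin (n + 1) → ℂ),
        (∀ h j, eval (x h) (F j) = 0) → (∀ h, eval (x h) Q ≠ 0) →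
        IterVec s r e (fun h => (Fin.cons (eval (x h) Q)⁻¹ (x h) : Fin (n + 2) → ℂ)) →
        ¬ ∃ hs : ℕ → H, (∀ i, eval (x (hs i)) G ≠ 0) ∧ (∀ i, x (hs i) ≠ 0) ∧
          ∀ i j, i ≤ N → j ≤ N → i ≠ j →
            ∃ u v, x (hs i) u * x (hs j) v ≠ x (hs i) v * x (hs j) u := by
  classical
  by_contra hcon
  push Not at hcon
  choose F Q G hF hQ hG hV Hs iH x hxF hxQ hx hs hsG hs0 hnp using hcon
  obtain ⟨Θ, hsur, hΘ⟩ := exists_theta
  let xs : (∀ i, Hs i) → Fin (n + 1) → ℂ := fun h j => Θ fun i => x i (h i) j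
  let w : (∀ i, Hs i) → ℂ := fun h => Θ fun i => (eval (x i (h i)) (Q i))⁻¹
  have hxs : IterVec s r e fun (h : ∀ i, Hs i) j => Θ fun i =>
      (Fin.cons (eval (x i (h i)) (Q i))⁻¹ (x i (h i)) : Fin (n + 2) → ℂ) j :=
    (IterVec.prod hx).map Θ
  obtain ⟨R, hR, hmem⟩ := hxs.tow
  have hwR : w ∈ R := by
    have h1 := hmem 0
    simp only [Fin.cons_zero] at h1
    exact h1
  have hxR : ∀ j, (fun h => xs h j) ∈ R := by
    intro j
    have h1 := hmem j.succ
    simp only [Fin.cons_succ] at h1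
    exact h1
  have kF : ∀ (j : Fin m) (h : ∀ i, Hs i), eval (xs h) (map Θ (sqp (δ j) fun i => F i j)) = 0 := by
    intro j h
    have h1 : eval (xs h) (map Θ (sqp (δ j) fun i => F i j)) =
        Θ fun i => eval (x i (h i)) (F i j) := Th_sqp Θ (fun i => hF i j) fun i => x i (h i)
    rw [h1]
    have h2 : (fun i => eval (x i (h i)) (F i j)) = fun _ => 0 := by
      funext i
      rw [hxF i (h i) j]
    rw [h2]
    exact map_zero Θ
  have kQ : ∀ h : ∀ i, Hs i, w h * eval (xs h) (map Θ (sqp q Q)) = 1 := by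
    intro h
    have h1 : eval (xs h) (map Θ (sqp q Q)) = Θ fun i => eval (x i (h i)) (Q i) :=
      Th_sqp Θ hQ fun i => x i (h i)
    rw [h1, ← map_mul, ← map_one Θ]
    congr 1
    funext i
    exact inv_mul_cancel₀ (hxQ i (h i))
  have kG : ∀ h : ∀ i, Hs i, eval (xs h) (map Θ (sqp γ G)) =
      Θ fun i => eval (x i (h i)) (G i) := fun h => Th_sqp Θ hG fun i => x i (h i)
  let a : ℕ → ∀ i, Hs i := fun m i => hs i m
  have hGa : ∀ m, eval (xs (a m)) (map Θ (sqp γ G)) ≠ 0 := by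
    intro m
    rw [kG]
    obtain ⟨-, h1⟩ := theta_ne hΘ (fun _ : Unit => fun i => eval (x i (a m i)) (G i)) 0
      (fun i _ => ⟨(), hsG i m⟩)
    exact h1
  have hxne : ∀ m, ∃ l, xs (a m) l ≠ 0 := fun m =>
    theta_ne hΘ (fun l i => x i (a m i) l) 0 fun i _ => Function.ne_iff.1 (hs0 i m)
  have hcross : ∀ m m', m ≠ m' → ∃ u v, xs (a m) u * xs (a m') v ≠ xs (a m) v * xs (a m') u := by
    intro m m' hmm
    obtain ⟨⟨u, v⟩, h1⟩ := theta_ne hΘ (fun (p : Fin (n + 1) × Fin (n + 1)) i =>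
      x i (a m i) p.1 * x i (a m' i) p.2 - x i (a m i) p.2 * x i (a m' i) p.1) (max m m')
      (fun i hi => by
        obtain ⟨u, v, h1⟩ := hnp i m m' ((le_max_left _ _).trans hi)
          ((le_max_right _ _).trans hi) hmm
        exact ⟨(u, v), sub_ne_zero.2 h1⟩)
    refine ⟨u, v, fun h2 => h1 ?_⟩
    have h3 : (fun i => x i (a m i) u * x i (a m' i) v - x i (a m i) v * x i (a m' i) u) =
        (fun i => x i (a m i) u) * (fun i => x i (a m' i) v) -
          (fun i => x i (a m i) v) * (fun i => x i (a m' i) u) := rfl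
    change Θ (fun i => x i (a m i) u * x i (a m' i) v - x i (a m i) v * x i (a m' i) u) = 0
    rw [h3, map_sub, map_mul, map_mul]
    exact sub_eq_zero.2 h2
  obtain ⟨Nn, hn, hfi, hres⟩ := exists_res fhyp hR
  have hq : Finite ((∀ i, Hs i) ⧸ Nn) := inferInstance
  obtain ⟨m1, m2, hmm, hmk⟩ := Finite.exists_ne_map_eq_of_infinite
    fun m : ℕ => (QuotientGroup.mk (a m) : (∀ i, Hs i) ⧸ Nn)
  have hco : a m2 * (a m1)⁻¹ ∈ Nn := hn.mem_comm (QuotientGroup.eq.1 hmk)
  obtain ⟨l, hl⟩ := hxne m1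
  obtain ⟨u, v, huv⟩ := hcross m1 m2 hmm
  obtain ⟨K, i1, i2, Γ, ρ, hρ⟩ := hres (a m1)
  obtain ⟨M, j1, j2, P, hP1, hP2, hP3⟩ := coset_fam hxR ((sqp_hom q Q).map Θ) hwR kQ hρ hl hco huv
  obtain ⟨p', hp1, hp2, hp3, hp4, hp5⟩ := UG.special (Q := map Θ (sqp q Q))
    (G' := map Θ (sqp γ G)) (S := Set.range fun j => map Θ (sqp (δ j) fun i => F i j)) (P := P)
    (by
      rintro _ ⟨j, rfl⟩
      rw [hP1 _ ⟨_, (sqp_hom _ _).map Θ⟩]
      exact fun g _ => kF j _) hP2 hP3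
    (by
      rw [Ne, hP1 _ ⟨_, (sqp_hom _ _).map Θ⟩]
      intro h1
      have h2 := h1 1 Nn.one_mem
      rw [one_mul] at h2
      exact hGa m1 h2)
  let N0 : ℕ := Finset.univ.sup fun j => (P j).natDegree
  obtain ⟨i, hi, P', hP', t, ht⟩ := curve_descent hsur hΘ hF hQ hG (p := p') (N := N0)
    (fun l => (hp1 l).trans (Finset.le_sup (f := fun j => (P j).natDegree)
      (Finset.mem_univ l))) (fun j => hp2 _ ⟨j, rfl⟩) hp3 hp4 hp5 N0
  exact ht (hV i P' (hP'.mono le_rfl hi) t)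

/-- the families of type `(s, r, e)` of points, with values in the field `L`, of the complement of
`Q = 0`: the coordinates of the vectors `x(h)` and `1 / Q(x(h))` are given by iterated recurrences -/
def IterOff {L : Type} [Field L] {H : Type} [Group H] (s r e : ℕ)
    (Q : MvPolynomial (Fin (n + 1)) L) (x : H → Fin (n + 1) → L) : Prop :=
  (∀ h, eval (x h) Q ≠ 0) ∧
    IterVec s r e (fun h => (Fin.cons (eval (x h) Q)⁻¹ (x h) : Fin (n + 2) → L))

/-- **Points given by iterated recurrences in bounded families of varieties.** -/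
theorem arith_family (n D s r e : ℕ) :
    ∃ N : ℕ, ∀ (L : Type) [Field L] (τ : L →+* ℂ) (E : Set (MvPolynomial (Fin (n + 1)) L))
      (Q G : MvPolynomial (Fin (n + 1)) L), (∀ F ∈ E, ∃ a ≤ D, F.IsHomogeneous a) →
      (∃ a ≤ D, Q.IsHomogeneous a) → (∃ a ≤ D, G.IsHomogeneous a) →
      VanGm (Ideal.span (map τ '' E)) (map τ Q) N (map τ G) →
      ∀ (H : Type) [Group H] (x : H → Fin (n + 1) → L),
        (∀ h, ∀ F ∈ E, eval (x h) F = 0) → IterOff s r e Q x →
          (ptsOff G x).encard ≤ (N : ℕ∞) := by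
  classical
  obtain ⟨m, δ, hred⟩ := span_red n D
  choose N hN using fun p : Fin (D + 1) × Fin (D + 1) =>
    arith_unif (n := n) δ (p.1 : ℕ) (p.2 : ℕ) s r e
  refine ⟨Finset.univ.sup N, ?_⟩
  rintro L _ τ E Q G hE ⟨q, hq, hQ⟩ ⟨γ, hγ, hG⟩ hV H _ x hx ⟨hxQ, hxI⟩
  by_contra hcon
  obtain ⟨hs, h1, h2, h3⟩ := exists_seqC hcon
  obtain ⟨F, hF, hFE⟩ := hred (map τ '' E) (by
    rintro _ ⟨F, hF, rfl⟩
    obtain ⟨a, ha, hFa⟩ := hE F hF
    exact ⟨a, ha, hFa.map τ⟩)
  have hle : N (⟨q, by omega⟩, ⟨γ, by omega⟩) ≤ Finset.univ.sup N :=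
    Finset.le_sup (Finset.mem_univ _)
  have hev : ∀ (F : MvPolynomial (Fin (n + 1)) L) h,
      eval (fun j => τ (x h j)) (map τ F) = τ (eval (x h) F) := by
    intro F h
    rw [eval_map]
    have h4 := eval₂_comp_left τ (RingHom.id L) (x h) F
    rw [RingHom.comp_id] at h4
    exact h4.symm
  refine hN (⟨q, by omega⟩, ⟨γ, by omega⟩) F (map τ Q) (map τ G) hF (hQ.map τ) (hG.map τ) (by
    rw [hFE]
    exact hV.mono (fun _ h _ => h) hle) H (fun h j => τ (x h j)) ?_ ?_ ?_ ⟨hs, ?_, ?_, ?_⟩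
  · intro h j
    have h5 : F j ∈ Ideal.span (map τ '' E) := by
      rw [← hFE]
      exact Ideal.subset_span ⟨j, rfl⟩
    have h6 : Ideal.span (map τ '' E) ≤ RingHom.ker (eval fun j => τ (x h j)) := by
      rw [Ideal.span_le]
      rintro _ ⟨F', hF', rfl⟩
      change eval (fun j => τ (x h j)) (map τ F') = 0
      rw [hev, hx h F' hF', map_zero]
    exact h6 h5
  · intro h
    rw [hev, Ne, map_eq_zero]
    exact hxQ h
  · have h5 := hxI.map τ
    have h6 : (fun h j => τ ((Fin.cons (eval (x h) Q)⁻¹ (x h) : Fin (n + 2) → L) j)) =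
        fun h => (Fin.cons (eval (fun j => τ (x h j)) (map τ Q))⁻¹ (fun j => τ (x h j)) :
          Fin (n + 2) → ℂ) := by
      funext h j
      refine Fin.cases ?_ (fun j => ?_) j
      · rw [Fin.cons_zero, Fin.cons_zero, hev, map_inv₀]
      · rw [Fin.cons_succ, Fin.cons_succ]
    rw [← h6]
    exact h5
  · intro i
    rw [hev, Ne, map_eq_zero]
    exact h1 i
  · intro i h0
    apply h2 i
    funext j
    exact (map_eq_zero τ).1 (congrFun h0 j)
  · intro i j hi hj hij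
    obtain ⟨u, v, h4⟩ := h3 i j (hi.trans hle) (hj.trans hle) hij
    refine ⟨u, v, fun h5 => h4 ?_⟩
    rw [← map_mul, ← map_mul] at h5
    exact τ.injective h5

end Pool.Agent.V1153.IT
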